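import Pool.Agent.Run7.h820.UM.Stm
import Pool.Agent.Q90.SM.Ext

set_option autoImplicit false
open Complex Filter Topology Set Metric MeasureTheory

namespace Run7.h11.UM

open Run7.h820.UM
open Q90.SM (IsSig)

section
variable {η : ℕ → ℝ}

lemma eta_le (h2 : ∀ k, η (k + 1) ≤ η k / 2) (K n : ℕ) : η (K + n) ≤ η K / 2 ^ n := by
  induction n with
  | zero => simp
  | succ n ih =>
    have h := h2 (K + n)
    have e : η K / 2 ^ (n + 1) = η K / 2 ^ n / 2 := by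
      rw [pow_succ]
      field_simp
    rw [e]
    show η (K + n + 1) ≤ _
    linarith

lemma eta_tendsto (h1 : ∀ k, 0 < η k) (h2 : ∀ k, η (k + 1) ≤ η k / 2) :
    Tendsto η atTop (𝓝 0) := by
  have hb : ∀ n, η n ≤ η 0 * (1 / 2) ^ n := by
    intro n
    have h := eta_le h2 0 n
    rw [zero_add] at h
    rw [one_div, inv_pow, ← div_eq_mul_inv]
    exact h
  refine squeeze_zero (fun n => (h1 n).le) hb ?_
  have h3 := tendsto_pow_atTop_nhds_zero_of_lt_one (by norm_num : (0:ℝ) ≤ 1 / 2) (by norm_num)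
  simpa using h3.const_mul (η 0)

lemma lim_exists (h1 : ∀ k, 0 < η k) (h2 : ∀ k, η (k + 1) ≤ η k / 2) (f : ℕ → ℂ → ℂ)
    (hf : ∀ k, ∀ z : ℂ, 1 + η k ≤ ‖z‖ → ‖f (k + 1) z - f k z‖ ≤ η k) :
    ∃ F : ℂ → ℂ, ∀ k, ∀ z : ℂ, 1 + η k ≤ ‖z‖ →
      Tendsto (fun n => f n z) atTop (𝓝 (F z)) ∧ ‖F z - f k z‖ ≤ 2 * η k := by
  classical
  have key : ∀ k, ∀ z : ℂ, 1 + η k ≤ ‖z‖ → ∃ L : ℂ, Tendsto (fun n => f n z) atTop (𝓝 L) ∧
      ‖L - f k z‖ ≤ 2 * η k := by
    intro k z hz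
    have hd : ∀ n, dist (f (k + n) z) (f (k + (n + 1)) z) ≤ 2 * η k / 2 / 2 ^ n := by
      intro n
      have hle := eta_le h2 k n
      have hmon : η (k + n) ≤ η k := hle.trans (div_le_self (h1 k).le (one_le_pow₀ (by norm_num)))
      rw [dist_comm, dist_eq_norm]
      refine (hf (k + n) z (by linarith)).trans ?_
      rw [mul_div_cancel_left₀ _ (two_ne_zero)]
      exact hle
    have hc := cauchySeq_of_le_geometric_two hd
    obtain ⟨L, hL⟩ := cauchySeq_tendsto_of_complete hc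
    have hL' : Tendsto (fun n => f n z) atTop (𝓝 L) := by
      rw [← tendsto_add_atTop_iff_nat k]
      refine hL.congr fun n => ?_
      rw [add_comm]
    refine ⟨L, hL', ?_⟩
    have h3 := dist_le_of_le_geometric_two_of_tendsto₀ hd hL
    rw [dist_comm, dist_eq_norm, add_zero] at h3
    exact h3
  refine ⟨fun z => if h : ∃ L : ℂ, Tendsto (fun n => f n z) atTop (𝓝 L) then h.choose else 0,
    fun k z hz => ?_⟩
  obtain ⟨L, hL, hb⟩ := key k z hz
  have hex : ∃ L : ℂ, Tendsto (fun n => f n z) atTop (𝓝 L) := ⟨L, hL⟩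
  have e : hex.choose = L := tendsto_nhds_unique hex.choose_spec hL
  simp only [dif_pos hex]
  rw [e]
  exact ⟨hL, hb⟩

lemma tlu (h1 : ∀ k, 0 < η k) (h2 : ∀ k, η (k + 1) ≤ η k / 2) (f : ℕ → ℂ → ℂ) (F : ℂ → ℂ)
    (hF : ∀ k, ∀ z : ℂ, 1 + η k ≤ ‖z‖ → ‖F z - f k z‖ ≤ 2 * η k * ‖z‖) :
    TendstoLocallyUniformlyOn f F atTop {z : ℂ | 1 < ‖z‖} := by
  rw [Metric.tendstoLocallyUniformlyOn_iff]
  intro ε hε z hz
  have hz1 : 1 < ‖z‖ := hz
  obtain ⟨ρ, hρ1, hρ2⟩ := exists_between hz1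
  have ht := eta_tendsto h1 h2
  refine ⟨{w : ℂ | ρ < ‖w‖ ∧ ‖w‖ < ‖z‖ + 1}, ?_, ?_⟩
  · apply mem_nhdsWithin_of_mem_nhds
    have ho : IsOpen {w : ℂ | ρ < ‖w‖ ∧ ‖w‖ < ‖z‖ + 1} :=
      (isOpen_lt continuous_const continuous_norm).inter
        (isOpen_lt continuous_norm continuous_const)
    exact ho.mem_nhds ⟨hρ2, by linarith⟩
  · have e1 : ∀ᶠ n in atTop, η n < ρ - 1 := ht.eventually_lt_const (by linarith)
    have e2 : ∀ᶠ n in atTop, η n < ε / (2 * (‖z‖ + 1)) := ht.eventually_lt_const (by positivity)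
    filter_upwards [e1, e2] with n hn1 hn2
    rintro w ⟨hw1, hw2⟩
    rw [dist_eq_norm]
    refine lt_of_le_of_lt (hF n w (by linarith)) ?_
    have h3 : 0 < 2 * (‖z‖ + 1) := by positivity
    rw [lt_div_iff₀ h3] at hn2
    have h4 := h1 n
    nlinarith

end

theorem t_LIM (hDQ : S_DQ) : S_LIM := by
  intro ψ h η hS hη h2 h01 hst
  obtain ⟨h', hh'⟩ := lim_exists hη h2 h (fun k z hz => (hst k z hz).1)
  obtain ⟨F, hF⟩ := lim_exists hη h2 (fun k z => ψ k z / z) (fun k z hz => by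
    have hz0 : 0 < ‖z‖ := by linarith [hη k]
    rw [← sub_div, norm_div, div_le_iff₀ hz0]
    exact (hst k z hz).2)
  have ht := eta_tendsto hη h2
  have hex : ∀ z : ℂ, 1 < ‖z‖ → ∃ k, 1 + η k ≤ ‖z‖ := by
    intro z hz
    have e1 : ∀ᶠ n in atTop, η n < ‖z‖ - 1 := ht.eventually_lt_const (by linarith)
    obtain ⟨k, hk⟩ := e1.exists
    exact ⟨k, by linarith⟩
  obtain ⟨ψ', hψ'⟩ : ∃ ψ' : ℂ → ℂ, ψ' = fun z => z * F z := ⟨_, rfl⟩
  have hψb : ∀ k, ∀ z : ℂ, 1 + η k ≤ ‖z‖ → ‖ψ' z - ψ k z‖ ≤ 2 * η k * ‖z‖ := by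
    intro k z hz
    have hz0 : 0 < ‖z‖ := by linarith [hη k]
    have hz1 : z ≠ 0 := norm_pos_iff.1 hz0
    have e : ψ' z - ψ k z = z * (F z - ψ k z / z) := by
      rw [hψ']
      field_simp
    rw [e, norm_mul, mul_comm]
    exact mul_le_mul_of_nonneg_right (hF k z hz).2 hz0.le
  have hhb : ∀ k, ∀ z : ℂ, 1 + η k ≤ ‖z‖ → ‖h' z - h k z‖ ≤ 2 * η k * ‖z‖ := by
    intro k z hz
    have h3 := (hh' k z hz).2
    have h4 := hη k
    nlinarith
  have hUo : IsOpen {z : ℂ | 1 < ‖z‖} := isOpen_lt continuous_const continuous_norm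
  have tψ := tlu hη h2 ψ ψ' hψb
  have th := tlu hη h2 h h' hhb
  have dψ : ∀ᶠ n in atTop, DifferentiableOn ℂ (ψ n) {z : ℂ | 1 < ‖z‖} :=
    Eventually.of_forall fun n => (hS n).1
  have dh : ∀ᶠ n in atTop, DifferentiableOn ℂ (h n) {z : ℂ | 1 < ‖z‖} :=
    Eventually.of_forall fun n => (hS n).2.2.2.1
  have hψt : ∀ z : ℂ, 1 < ‖z‖ → Tendsto (fun n => ψ n z) atTop (𝓝 (ψ' z)) := fun z hz =>
    tψ.tendsto_at hz
  refine ⟨ψ', h', ⟨tψ.differentiableOn dψ hUo, ?_, ?_, th.differentiableOn dh hUo, ?_, ?_⟩,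
    fun k z hz => (hh' k z hz).2⟩
  · -- injectivity
    intro z hz w hw hzw
    have hz1 : 1 < ‖z‖ := hz
    have hw1 : 1 < ‖w‖ := hw
    obtain ⟨ρ, hρ⟩ : ∃ ρ, ρ = min ‖z‖ ‖w‖ := ⟨_, rfl⟩
    have hρ1 : 1 < ρ := by
      rw [hρ]
      exact lt_min hz1 hw1
    have hk : ∀ k, ‖z - w‖ * (1 - 1 / ρ ^ 2) ≤ ‖ψ k z - ψ k w‖ := fun k =>
      hDQ (ψ k) (h k) (hS k) ρ hρ1 z w (hρ ▸ min_le_left _ _) (hρ ▸ min_le_right _ _)
    have hlim : Tendsto (fun n => ‖ψ n z - ψ n w‖) atTop (𝓝 ‖ψ' z - ψ' w‖) :=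
      ((hψt z hz1).sub (hψt w hw1)).norm
    have hle := ge_of_tendsto' hlim hk
    rw [hzw, sub_self, norm_zero] at hle
    have h3 : 0 < 1 - 1 / ρ ^ 2 := by
      rw [sub_pos, div_lt_one (by positivity)]
      nlinarith
    have h4 : ‖z - w‖ ≤ 0 := by
      by_contra hc
      rw [not_le] at hc
      have := mul_pos hc h3
      linarith
    have h5 : z - w = 0 := norm_le_zero_iff.1 h4
    exact sub_eq_zero.1 h5
  · -- behaviour at infinity
    obtain ⟨Y, hY⟩ : ∃ Y, Y = Pool.Agent.W677.Mar.hat F 1 := ⟨_, rfl⟩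
    have hYk : ∀ k, DifferentiableOn ℂ (Pool.Agent.W677.Mar.hat (fun z => ψ k z / z) 1)
        (ball 0 1) := fun k => (Q90.SM.ext_all (ψ k) (h k) (hS k)).1.G.diff
    have hYb : ∀ k, ∀ v : ℂ, ‖v‖ * (1 + η k) ≤ 1 →
        ‖Y v - Pool.Agent.W677.Mar.hat (fun z => ψ k z / z) 1 v‖ ≤ 2 * η k := by
      intro k v hv
      rw [hY]
      by_cases hv0 : v = 0
      · rw [hv0, Pool.Agent.W677.Mar.hat_zero, Pool.Agent.W677.Mar.hat_zero, sub_self, norm_zero]
        linarith [hη k]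
      · rw [Pool.Agent.W677.Mar.hat_ne _ _ hv0, Pool.Agent.W677.Mar.hat_ne _ _ hv0]
        apply (hF k v⁻¹ ?_).2
        have hvp : 0 < ‖v‖ := norm_pos_iff.2 hv0
        rw [norm_inv, ← one_div, le_div_iff₀ hvp]
        linarith
    have tY : TendstoLocallyUniformlyOn
        (fun k => Pool.Agent.W677.Mar.hat (fun z => ψ k z / z) 1) Y atTop (ball 0 1) := by
      rw [Metric.tendstoLocallyUniformlyOn_iff]
      intro ε hε v hv
      have hv1 : ‖v‖ < 1 := mem_ball_zero_iff.1 hv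
      obtain ⟨ρ, hρ1, hρ2⟩ := exists_between hv1
      refine ⟨ball 0 ρ, mem_nhdsWithin_of_mem_nhds
        (isOpen_ball.mem_nhds (mem_ball_zero_iff.2 hρ1)), ?_⟩
      have e1 : ∀ᶠ n in atTop, η n < 1 - ρ := ht.eventually_lt_const (by linarith)
      have e2 : ∀ᶠ n in atTop, η n < ε / 2 := ht.eventually_lt_const (by linarith)
      filter_upwards [e1, e2] with n hn1 hn2
      intro w hw
      have hw1 : ‖w‖ < ρ := mem_ball_zero_iff.1 hw
      rw [dist_eq_norm]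
      refine lt_of_le_of_lt (hYb n w ?_) (by linarith)
      have h4 := hη n
      have h5 := norm_nonneg w
      have h6 : ‖w‖ * (1 + η n) ≤ ρ * (2 - ρ) := by
        apply mul_le_mul hw1.le (by linarith) (by linarith) (by linarith)
      nlinarith [sq_nonneg (1 - ρ)]
    have dY : DifferentiableOn ℂ Y (ball 0 1) :=
      tY.differentiableOn (Eventually.of_forall hYk) isOpen_ball
    have hd : HasDerivAt Y (deriv Y 0) 0 :=
      (dY.differentiableAt (ball_mem_nhds 0 one_pos)).hasDerivAt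
    refine ⟨deriv Y 0, ?_⟩
    have h3 := (hasDerivAt_iff_tendsto_slope.1 hd).comp tendsto_inv₀_cobounded'
    refine h3.congr' ?_
    have h5 : ∀ᶠ z : ℂ in Bornology.cobounded ℂ, 1 ≤ ‖z‖ :=
      (tendsto_norm_cobounded_atTop (E := ℂ)).eventually_ge_atTop _
    filter_upwards [h5] with z hz
    have hz0 : z ≠ 0 := norm_pos_iff.1 (by linarith)
    show slope Y 0 z⁻¹ = ψ' z - z
    rw [slope_def_field, hY, Pool.Agent.W677.Mar.hat_zero,
      Pool.Agent.W677.Mar.hat_ne _ _ (inv_ne_zero hz0), inv_inv, sub_zero, hψ']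
    field_simp
  · -- derivative
    intro z hz
    have d1 := (tψ.deriv dψ hUo).tendsto_at hz
    have d2 : Tendsto (fun n => Complex.exp (h n z)) atTop (𝓝 (Complex.exp (h' z))) :=
      (Complex.continuous_exp.tendsto _).comp (th.tendsto_at hz)
    refine tendsto_nhds_unique d2 (d1.congr fun n => ?_)
    exact ((hS n).2.2.2.2.1 z hz).symm
  · -- h' tends to zero
    rw [Metric.tendsto_nhds]
    intro ε hε
    have e1 : ∀ᶠ n in atTop, η n < ε / 4 := ht.eventually_lt_const (by linarith)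
    obtain ⟨k, hk⟩ := e1.exists
    have h3 := (hS k).2.2.2.2.2
    rw [Metric.tendsto_nhds] at h3
    have h4 := h3 (ε / 2) (by linarith)
    have h5 : ∀ᶠ z : ℂ in Bornology.cobounded ℂ, 1 + η k ≤ ‖z‖ :=
      (tendsto_norm_cobounded_atTop (E := ℂ)).eventually_ge_atTop _
    filter_upwards [h4, h5] with z hz1 hz2
    rw [dist_zero_right] at hz1 ⊢
    have h6 := (hh' k z hz2).2
    calc ‖h' z‖ = ‖(h' z - h k z) + h k z‖ := by ring_nf
      _ ≤ ‖h' z - h k z‖ + ‖h k z‖ := norm_add_le _ _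
      _ < ε := by linarith

end Run7.h11.UM
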